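import Pool.Agent.W_c0q2_h20.Iface

/-!
# MP_c0ce05_co, Q2 (proofs row 518): assembly of the static theorem
-/

set_option autoImplicit false

namespace C0q2

open scoped Classical
open C0lo C0st

variable {N : ℕ}

/-- the number of subsets with at most `k` elements -/
theorem card_small_le (N k : ℕ) :
    ((Finset.univ : Finset (Finset (Fin N))).filter (fun R => R.card ≤ k)).card ≤ (N + 1) ^ k := by
  have h : ((Finset.univ : Finset (Finset (Fin N))).filter (fun R => R.card ≤ k)) ⊆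
      (Finset.univ : Finset (Fin k → Option (Fin N))).image
        (fun f => Finset.univ.filter (fun x => ∃ i, f i = some x)) := by
    intro R hR
    rw [Finset.mem_filter] at hR
    rw [Finset.mem_image]
    refine ⟨fun i => if h : (i : ℕ) < R.card then some (R.equivFin.symm ⟨i, h⟩ : Fin N) else none,
      Finset.mem_univ _, ?_⟩
    ext x
    rw [Finset.mem_filter]
    constructor
    · rintro ⟨_, i, hi⟩
      dsimp only at hi
      by_cases h : (i : ℕ) < R.card
      · rw [dif_pos h] at hi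
        rw [← Option.some.inj hi]
        exact (R.equivFin.symm ⟨i, h⟩).2
      · rw [dif_neg h] at hi
        exact absurd hi (by simp)
    · intro hx
      refine ⟨Finset.mem_univ _, ⟨R.equivFin ⟨x, hx⟩, lt_of_lt_of_le (R.equivFin ⟨x, hx⟩).2 hR.2⟩, ?_⟩
      dsimp only
      rw [dif_pos (R.equivFin ⟨x, hx⟩).2]
      simp
  refine (Finset.card_le_card h).trans (Finset.card_image_le.trans ?_)
  rw [Finset.card_univ, Fintype.card_fun, Fintype.card_option, Fintype.card_fin, Fintype.card_fin]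

/-- the pigeonhole step: a large family contains a large family with a common small `R` -/
theorem exists_common {C : Finset (Finset (Fin N))} {k : ℕ}
    {Q : Finset (Fin N) → Finset (Fin N) → Prop} (h : ∀ A ∈ C, ∃ R ⊆ A, R.card ≤ k ∧ Q R A) :
    ∃ R : Finset (Fin N), R.card ≤ k ∧ ∃ C' ⊆ C, (∀ A ∈ C', R ⊆ A ∧ Q R A) ∧
      C.card ≤ (N + 1) ^ k * C'.card := by
  have hne : ((Finset.univ : Finset (Finset (Fin N))).filter (fun R => R.card ≤ k)).Nonempty :=
    ⟨∅, Finset.mem_filter.2 ⟨Finset.mem_univ _, by simp⟩⟩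
  obtain ⟨R, hR, hmax⟩ := Finset.exists_max_image
    ((Finset.univ : Finset (Finset (Fin N))).filter (fun R => R.card ≤ k))
    (fun R => (C.filter (fun A => R ⊆ A ∧ Q R A)).card) hne
  refine ⟨R, (Finset.mem_filter.1 hR).2, _, Finset.filter_subset _ C,
    fun A hA => (Finset.mem_filter.1 hA).2, ?_⟩
  have h1 : C ⊆ ((Finset.univ : Finset (Finset (Fin N))).filter (fun R => R.card ≤ k)).biUnion
      (fun R => C.filter (fun A => R ⊆ A ∧ Q R A)) := by
    intro A hA
    obtain ⟨R, hRA, hRk, hQ⟩ := h A hA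
    exact Finset.mem_biUnion.2 ⟨R, Finset.mem_filter.2 ⟨Finset.mem_univ _, hRk⟩,
      Finset.mem_filter.2 ⟨hA, hRA, hQ⟩⟩
  refine (Finset.card_le_card h1).trans ?_
  refine (Finset.card_biUnion_le_card_mul _ _ _ hmax).trans ?_
  exact Nat.mul_le_mul_right _ (card_small_le N k)

theorem Big.N_pos {q : ℕ} {L l : ℝ} (h : Big N q L l) : 0 < N := by
  rcases Nat.eq_zero_or_pos N with h0 | h0
  · exfalso
    have h1 := h.L_def
    have h2 := h.l_big
    have h3 := h.l_sm
    rw [h0] at h1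
    simp at h1
    rw [h1] at h3
    nlinarith
  · exact h0

theorem Big.L_large {q : ℕ} {L l : ℝ} (h : Big N q L l) : 10 ^ 57 ≤ L := by
  have h2 := h.l_big
  have h3 := h.l_sm
  nlinarith

theorem Big.two_pow_L {q : ℕ} {L l : ℝ} (h : Big N q L l) : (2 : ℝ) ^ L = N := by
  rw [h.L_def, Real.rpow_logb (by norm_num) (by norm_num)]
  exact_mod_cast h.N_pos

/-- **The static theorem**, small range -/
theorem Mi_of (h1 : S_F1) (h2 : S_PL) (h3 : S_TS) (h4 : S_WT) (h5 : S_MC) (h6 : S_CL) : S_Mi := by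
  intro N q L l hB
  have hs := (((h1 N q L l hB).and (h2 N q L l hB)).and (h4 N q L l hB)).and (h5 N q L l hB)
  refine hs.mono (by norm_num) ?_
  rintro P ⟨⟨⟨a1, a2⟩, a4⟩, a5⟩ D p hC
  have hF1 := a1 D p hC
  have hPL := a2 D p hC hF1
  have hTS := h3 N q L l P D p hC hF1 hPL
  have hWT := a4 hC.val
  have hMC := a5 D p hC hWT
  by_contra hcon
  rw [not_le] at hcon
  have hp1 := hC.p1
  have hL := hB.L_large
  have hL0 : 0 < L := by linarith
  have hp0 : 0 < p := by linarith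
  obtain ⟨R, hRk, C, hCsub, hCR, hcard⟩ := exists_common (C := Fam P q D) (k := ⌊p / 20000⌋₊)
    (Q := fun R A => ∃ Dr, Derq P R A Dr ∧ 0.86 * p ≤ (Dr.card : ℝ)) (by
      intro A hA
      obtain ⟨R, hR, hRc, hD⟩ := h6 N q L l P D p hC A hA
      exact ⟨R, hR, Nat.le_floor hRc, hD⟩)
  have hRp : (R.card : ℝ) ≤ p / 20000 := by
    have : (R.card : ℝ) ≤ (⌊p / 20000⌋₊ : ℝ) := by exact_mod_cast hRk
    exact this.trans (Nat.floor_le (by positivity))
  have hN : (N : ℝ) + 1 ≤ 2 ^ (1.001 * L) := by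
    have h7 := hB.two_pow_L
    have h8 : (1.001 : ℝ) * L = L + 0.001 * L := by ring
    rw [h8, Real.rpow_add (by norm_num), h7]
    have h9 : (2 : ℝ) ≤ 2 ^ (0.001 * L) := by
      calc (2 : ℝ) = 2 ^ (1 : ℝ) := by rw [Real.rpow_one]
        _ ≤ _ := Real.rpow_le_rpow_of_exponent_le (by norm_num) (by linarith)
    have h10 : (1 : ℝ) ≤ N := by exact_mod_cast hB.N_pos
    nlinarith
  have hpow : ((N : ℝ) + 1) ^ ⌊p / 20000⌋₊ ≤ 2 ^ (0.00005005 * p * L) := by
    calc ((N : ℝ) + 1) ^ ⌊p / 20000⌋₊ ≤ ((2 : ℝ) ^ (1.001 * L)) ^ ⌊p / 20000⌋₊ :=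
          pow_le_pow_left₀ (by positivity) hN _
      _ = (2 : ℝ) ^ (1.001 * L * (⌊p / 20000⌋₊ : ℝ)) := by
          rw [← Real.rpow_natCast, ← Real.rpow_mul (by norm_num)]
      _ ≤ _ := by
          refine Real.rpow_le_rpow_of_exponent_le (by norm_num) ?_
          have h11 : (⌊p / 20000⌋₊ : ℝ) ≤ p / 20000 := Nat.floor_le (by positivity)
          have h12 : 1.001 * L * (⌊p / 20000⌋₊ : ℝ) ≤ 1.001 * L * (p / 20000) :=
            mul_le_mul_of_nonneg_left h11 (by positivity)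
          linarith [h12, mul_pos hp0 hL0, (by ring : 1.001 * L * (p / 20000) =
            0.00005005 * p * L)]
  have hClarge : (2 : ℝ) ^ ((0.002705 * p + 105) * L) ≤ (C.card : ℝ) := by
    by_contra hlt
    rw [not_le] at hlt
    have h13 : ((Fam P q D).card : ℝ) ≤ ((N : ℝ) + 1) ^ ⌊p / 20000⌋₊ * (C.card : ℝ) := by
      exact_mod_cast hcard
    have h14 : ((Fam P q D).card : ℝ) ≤ 2 ^ (0.00005005 * p * L) *
        (2 : ℝ) ^ ((0.002705 * p + 105) * L) :=
      h13.trans (mul_le_mul hpow hlt.le (by positivity) (by positivity))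
    rw [← Real.rpow_add (by norm_num)] at h14
    have h15 := hcon.trans_le h14
    rw [Real.rpow_lt_rpow_left_iff (by norm_num)] at h15
    nlinarith [mul_pos hp0 hL0]
  obtain ⟨T, hRT, hT, hne, hlo⟩ := hTS C hCsub hClarge R hRp (fun A hA => (hCR A hA).1)
  refine hMC (pinS C T) ((pinS_subset C T).trans hCsub) hne R T hRp hRT hT ?_ ?_ hlo
  · intro A hA
    exact (mem_pinS.1 hA).2
  · intro A hA
    exact (hCR A (mem_pinS.1 hA).1).2

/-- **The static theorem** -/
theorem St_of (h1 : S_Mi) (h2 : S_Ma) : S_St := by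
  obtain ⟨L0, h2⟩ := h2
  refine ⟨L0, fun N q L l hB hL0 => ?_⟩
  refine ((h1 N q L l hB).and (h2 N q L l hB hL0)).mono (by norm_num) ?_
  rintro P ⟨a1, a2⟩ hv D hD
  have hL := hB.L_large
  have hLp : 0 < L := by linarith
  by_cases h : 10 ^ (-17 : ℤ) * L ^ 2 ≤ (D : ℝ)
  · exact a2 hv D h
  · rw [not_le] at h
    have h3 := a1 D ((D : ℝ) / (2 * L)) ⟨hB, hv, by field_simp, by
      rw [le_div_iff₀ (by positivity)]
      nlinarith, by
      rw [← mul_div_assoc, div_le_iff₀ (by positivity)]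
      have h4 : (10 : ℝ) ^ 17 * (10 ^ (-17 : ℤ) * L ^ 2) = L ^ 2 := by
        rw [← mul_assoc, show (10 : ℝ) ^ 17 * 10 ^ (-17 : ℤ) = 1 by norm_num, one_mul]
      nlinarith⟩
    refine h3.trans (le_of_eq ?_)
    congr 1
    field_simp
    ring

end C0q2
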