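import Pool.Agent.W_c0q2_h20.Asm

/-!
# MP_c0ce05_co, Q2 (proofs row 518): the static theorem in the form used for the games
-/

set_option autoImplicit false

namespace C0q2

open scoped Classical
open C0lo C0st

/-- large `N` satisfy `Big` -/
theorem eventually_big (L0 : ℝ) : ∃ N0 : ℕ, ∀ N ≥ N0,
    Big N (⌈2 * Real.logb 2 (N : ℝ) - 2 * Real.logb 2 (Real.logb 2 (N : ℝ)) + 10 ^ 16⌉₊)
      (Real.logb 2 (N : ℝ)) (Real.logb 2 (Real.logb 2 (N : ℝ))) ∧
    L0 ≤ Real.logb 2 (N : ℝ) := by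
  have hlog : Filter.Tendsto (fun x : ℝ => Real.logb 2 x) Filter.atTop Filter.atTop :=
    Real.tendsto_logb_atTop (by norm_num)
  have hL : Filter.Tendsto (fun N : ℕ => Real.logb 2 (N : ℝ)) Filter.atTop Filter.atTop :=
    hlog.comp tendsto_natCast_atTop_atTop
  have hl : Filter.Tendsto (fun N : ℕ => Real.logb 2 (Real.logb 2 (N : ℝ))) Filter.atTop
      Filter.atTop := hlog.comp hL
  have hsm : ∀ᶠ x : ℝ in Filter.atTop, 10 ^ 40 * Real.logb 2 x ≤ x := by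
    have h1 : Filter.Tendsto (fun x : ℝ => Real.log x / x) Filter.atTop (nhds 0) := by
      simpa using Real.tendsto_pow_log_div_mul_add_atTop 1 0 1 one_ne_zero
    have h2 := h1.eventually (gt_mem_nhds (show (0 : ℝ) < Real.log 2 / 10 ^ 40 by
      have := Real.log_pos (one_lt_two)
      positivity))
    filter_upwards [h2, Filter.eventually_gt_atTop 0] with x hx hx0
    rw [div_lt_div_iff₀ hx0 (by positivity)] at hx
    have h3 := Real.log_pos (one_lt_two)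
    unfold Real.logb
    rw [mul_div_assoc', div_le_iff₀ h3]
    linarith
  have h := (((hL.eventually (Filter.eventually_ge_atTop L0)).and
    (hl.eventually (Filter.eventually_ge_atTop (10 ^ 17 : ℝ)))).and (hL.eventually hsm))
  obtain ⟨N0, hN0⟩ := Filter.eventually_atTop.1 h
  refine ⟨N0, fun N hN => ?_⟩
  obtain ⟨⟨h1, h2⟩, h3⟩ := hN0 N hN
  refine ⟨⟨rfl, rfl, h2, h3, Nat.le_ceil _, ?_⟩, h1⟩
  have h4 : 0 ≤ 2 * Real.logb 2 (N : ℝ) - 2 * Real.logb 2 (Real.logb 2 (N : ℝ)) + 10 ^ 16 := by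
    nlinarith
  exact (Nat.ceil_lt_add_one h4).le

/-- the static theorem, with `L = log₂ N`, `q = ⌈2 L - 2 log₂ L + 10 ^ 16⌉` -/
theorem St_form (h : S_St) : ∃ N0 : ℕ, ∀ N ≥ N0, ∀ L : ℝ, L = Real.logb 2 (N : ℝ) → ∀ q : ℕ,
    q = ⌈2 * L - 2 * Real.logb 2 L + 10 ^ 16⌉₊ →
    Sys N (1 / 8) (fun P => ∀ Dl : ℕ, (Dl : ℝ) ≤ 10 * L ^ 2 → P.Valid Dl → ∀ D u : ℕ,
      2 * 10 ^ 15 * L ≤ (D : ℝ) → (u : ℝ) ≤ (D : ℝ) / 400 →
      ((Finset.univ.filter (fun A : Finset (Fin N) => A.card = q ∧ Disjoint (ed A) P.K ∧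
        (ed A \ P.C).card = u ∧
        (P.db.filter (fun d => d.1 ∈ ed A ∧ d.2 ∈ ed A)).card = D)).card : ℝ) ≤
        (2 : ℝ) ^ (575 / 1000 * ((D : ℝ) / 400))) := by
  obtain ⟨L0, hSt⟩ := h
  obtain ⟨N0, hN0⟩ := eventually_big L0
  refine ⟨N0, fun N hN L hL q hq => ?_⟩
  obtain ⟨hB, hL0⟩ := hN0 N hN
  rw [← hL] at hB hL0
  rw [← hq] at hB
  refine (hSt N q L _ hB hL0).mono le_rfl ?_
  intro P hP Dl hDl hV D u hD hu
  have h1 := hP ⟨Dl, hV, hDl⟩ D hD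
  have h2 : ((Finset.univ.filter (fun A : Finset (Fin N) => A.card = q ∧ Disjoint (ed A) P.K ∧
        (ed A \ P.C).card = u ∧
        (P.db.filter (fun d => d.1 ∈ ed A ∧ d.2 ∈ ed A)).card = D)).card : ℝ) ≤
      ((Fam P q D).card : ℝ) := by
    exact_mod_cast Finset.card_le_card (fun A hA => by
      rw [Finset.mem_filter] at hA
      rw [mem_Fam]
      obtain ⟨_, a1, a2, a3, a4⟩ := hA
      refine ⟨a1, a2, a4, ?_⟩
      rw [a3]
      rw [le_div_iff₀ (by norm_num)] at hu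
      have : (u : ℝ) * 400 ≤ D := hu
      have h5 : u * 400 ≤ D := by exact_mod_cast this
      omega)
  refine (h2.trans h1).trans (le_of_eq ?_)
  congr 1
  ring

end C0q2
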