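import Pool.Agent.W_c0q2_h80.Sys
import Pool.Agent.W_c0q2_h41.Lossy

/-!
# MP_c0ce05_co, Q2 (proofs row 518): the interface between the sections

`L = log₂ N`, `l = log₂ L`, `q = 2 L - 2 l + 10 ^ 16` up to one unit, `D = 2 p L` links.
Constants of row 518: `eta = 1/200`, `kap = 1/20000`, `bet = eps = 1/200000`, `al = 1/2400000`,
`c6 = 24000000`, `xi0 = 320000`, `del = 10 ^ (-17)`, `C2 = 10 ^ 15`, `C0 = 10 ^ 16`, `c_rho = 100`.
Every section proves one of the statements `S_...` below.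
-/

set_option autoImplicit false

namespace C0q2

open scoped Classical
open C0lo C0st

variable {N : ℕ}

/-- `log₂ (4/3)`, about `0.41504` -/
noncomputable def g0 : ℝ := Real.logb 2 (4 / 3)

/-- `N` is large, `q = 2 L - 2 l + C0` up to one unit -/
structure Big (N q : ℕ) (L l : ℝ) : Prop where
  /-- definition of `L` -/
  L_def : L = Real.logb 2 (N : ℝ)
  /-- definition of `l` -/
  l_def : l = Real.logb 2 L
  /-- `l` is large -/
  l_big : 10 ^ 17 ≤ l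
  /-- `l` is small against `L` -/
  l_sm : 10 ^ 40 * l ≤ L
  /-- lower bound for `q` -/
  q_ge : 2 * L - 2 * l + 10 ^ 16 ≤ (q : ℝ)
  /-- upper bound for `q` -/
  q_le : (q : ℝ) ≤ 2 * L - 2 * l + 10 ^ 16 + 1

/-- legal positions with small in-degree -/
def Vd (P : GP N) (L : ℝ) : Prop := ∃ Dl : ℕ, P.Valid Dl ∧ (Dl : ℝ) ≤ 10 * L ^ 2

/-- the standing hypotheses of the range `C2 ≤ p ≤ del L`, `p = D / (2 L)` -/
structure Ctx (N q : ℕ) (L l : ℝ) (P : GP N) (D : ℕ) (p : ℝ) : Prop where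
  /-- `N` is large -/
  big : Big N q L l
  /-- a legal position -/
  val : Vd P L
  /-- number of links -/
  hD : (D : ℝ) = 2 * p * L
  /-- lower bound for `p` -/
  p1 : 10 ^ 15 ≤ p
  /-- upper bound for `p` -/
  p2 : 10 ^ 17 * p ≤ L

/-- the alive `q`-sets with exactly `D` links and at most `D / 400` unclaimed edges -/
noncomputable def Fam (P : GP N) (q D : ℕ) : Finset (Finset (Fin N)) :=
  Finset.univ.filter (fun A => A.card = q ∧ Disjoint (ed A) P.K ∧ lk P (ed A) (ed A) = D ∧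
    400 * (ed A \ P.C).card ≤ D)

theorem mem_Fam {P : GP N} {q D : ℕ} {A : Finset (Fin N)} :
    A ∈ Fam P q D ↔ A.card = q ∧ Disjoint (ed A) P.K ∧ lk P (ed A) (ed A) = D ∧
      400 * (ed A \ P.C).card ≤ D := by
  unfold Fam
  rw [Finset.mem_filter]
  exact ⟨fun h => h.2, fun h => ⟨Finset.mem_univ _, h⟩⟩

/-! ### Section 1: Gibbs inequality, popularity form -/

/-- **(G')**, type II. For a class with data `d ∈ D`, vertex sets `T d`, priors `a d` on the vertex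
sets, `m` copies: for every family `C` of alive sets `A` with `|A| ≤ 2 L` and `0 < a d A`, with the
threshold `th = L ^ (-12) / m`,
`log |C| ≤ (log |D| + log (1/c)) / m + E [log (1 / a d A) - #{claimed e in A - T, not lossy}
  + g0 #{links inside A - T}] + 2`. -/
def S_G : Prop := ∀ (N : ℕ) (L : ℝ), L = Real.logb 2 (N : ℝ) → 10 ^ 17 ≤ L →
  ∀ (Dt : Type) (_ : Fintype Dt) (m : ℕ) (T : Dt → Finset (Fin N)) (a : Dt → Finset (Fin N) → ℝ)
    (c : ℝ), 1 ≤ m → 0 < c → (∀ d A, 0 ≤ a d A) → (∀ d, ∑ A, a d A ≤ 1) →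
  Sys N c (fun P => Vd P L → ∀ d, ∀ C : Finset (Finset (Fin N)), C.Nonempty →
    (∀ A ∈ C, Disjoint (ed A) P.K ∧ (A.card : ℝ) ≤ 2 * L ∧ 0 < a d A) →
    ∑ A ∈ C, (Real.logb 2 (C.card : ℝ) + Real.logb 2 (a d A) +
      ((((ed (A \ T d)) ∩ P.C) \ lossy C (1 / (L ^ 12 * m)) (A \ T d)).card : ℝ) -
      g0 * (lk P (ed (A \ T d)) (ed (A \ T d)) : ℝ)) ≤
    ((Real.logb 2 (Fintype.card Dt : ℝ) + Real.logb 2 (1 / c)) / m + 2) * (C.card : ℝ))

/-! ### Section 2: Fact 1 -/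

/-- no large set is contained in many members of the family -/
def F1 (P : GP N) (q D : ℕ) (L p : ℝ) : Prop :=
  ∀ S : Finset (Fin N), 1.3 * p < (S.card : ℝ) →
    (cntS (Fam P q D) S : ℝ) < (2 : ℝ) ^ ((0.00255 * p + 101) * L)

/-- **Fact 1** -/
def S_F1 : Prop := ∀ (N q : ℕ) (L l : ℝ), Big N q L l →
  Sys N (1 / 64) (fun P => ∀ (D : ℕ) (p : ℝ), Ctx N q L l P D p → F1 P q D L p)

/-! ### Section 3: popular vertices -/

/-- the vertices with `P(x) ≥ N ^ (-(1 - al))` -/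
noncomputable def popV (C : Finset (Finset (Fin N))) (L : ℝ) : Finset (Fin N) :=
  Finset.univ.filter (fun x =>
    (2 : ℝ) ^ (-(1 - 1 / 2400000) * L) * C.card ≤ cntS C {x})

/-- few members of a large family have many popular vertices -/
def PL (P : GP N) (q D : ℕ) (L p : ℝ) : Prop :=
  ∀ C ⊆ Fam P q D, (2 : ℝ) ^ ((0.00265 * p + 104) * L) ≤ (C.card : ℝ) →
    L ^ 3 * ((C.filter (fun A => 24000000 * p ≤ ((A ∩ popV C L).card : ℝ))).card : ℝ) ≤ C.card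

/-- **Lemma P** -/
def S_PL : Prop := ∀ (N q : ℕ) (L l : ℝ), Big N q L l →
  Sys N (1 / 64) (fun P => ∀ (D : ℕ) (p : ℝ), Ctx N q L l P D p → F1 P q D L p → PL P q D L p)

/-! ### Section 4: the small core -/

/-- number of copies in the main class, `N ^ (1 + bet / 4)` -/
noncomputable def mMC (N : ℕ) : ℕ := ⌈(N : ℝ) ^ (1 + 1 / 800000 : ℝ)⌉₊

/-- every large family whose members contain the small set `R` has a small core `T ⊇ R` with few
lossy edges outside `T` -/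
def TS (P : GP N) (q D : ℕ) (L p : ℝ) : Prop :=
  ∀ C ⊆ Fam P q D, (2 : ℝ) ^ ((0.002705 * p + 105) * L) ≤ (C.card : ℝ) →
    ∀ R : Finset (Fin N), (R.card : ℝ) ≤ p / 20000 → (∀ A ∈ C, R ⊆ A) →
      ∃ T : Finset (Fin N), R ⊆ T ∧ (T.card : ℝ) ≤ 1.3 * p ∧ (pinS C T).Nonempty ∧
        ∑ A ∈ pinS C T, ((lossy (pinS C T) (1 / (L ^ 12 * mMC N)) (A \ T)).card : ℝ) ≤
          ((pinS C T).card : ℝ) * ((24000000 * p) ^ 2 / 2 + 640010 * L)

/-- **Section 4** (no classes) -/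
def S_TS : Prop := ∀ (N q : ℕ) (L l : ℝ) (P : GP N) (D : ℕ) (p : ℝ), Ctx N q L l P D p →
  F1 P q D L p → PL P q D L p → TS P q D L p

/-! ### Section 5: vertex weights -/

/-- the star with centre `x` and leaves in `T` -/
noncomputable def starQ (T : Finset (Fin N)) (x : Fin N) : Finset (Sym2 (Fin N)) :=
  T.image (fun h => s(x, h))

/-- the total weight of the stars over `T` -/
def WT (P : GP N) (L : ℝ) : Prop := ∀ T : Finset (Fin N), (T.card : ℝ) ≤ 0.4 * L →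
  ∑ x ∈ Finset.univ \ T, wtP P (starQ T x) ≤ 2 * N

/-- **Section 5** -/
def S_WT : Prop := ∀ (N q : ℕ) (L l : ℝ), Big N q L l →
  Sys N (1 / 64) (fun P => Vd P L → WT P L)

/-! ### Section 6: the main count -/

/-- `D ⊆ A` is derived from `A \ D` by arrows relative to `R` -/
def Derq (P : GP N) (R A D : Finset (Fin N)) : Prop :=
  D ⊆ A ∧ ∃ (f : Fin N → Fin N) (rk : Fin N → ℕ), ∀ y ∈ D, f y ∈ A ∧ Ar P R (f y) y ∧
    (f y ∈ D → rk y < rk (f y))

/-- **Section 6**: there is no family with small core, few lossy edges and many derived vertices -/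
def S_MC : Prop := ∀ (N q : ℕ) (L l : ℝ), Big N q L l →
  Sys N (1 / 64) (fun P => ∀ (D : ℕ) (p : ℝ), Ctx N q L l P D p → WT P L →
    ∀ C ⊆ Fam P q D, C.Nonempty → ∀ R T : Finset (Fin N), (R.card : ℝ) ≤ p / 20000 → R ⊆ T →
      (T.card : ℝ) ≤ 1.3 * p → (∀ A ∈ C, T ⊆ A) →
      (∀ A ∈ C, ∃ Dr, Derq P R A Dr ∧ 0.86 * p ≤ (Dr.card : ℝ)) →
      ∑ A ∈ C, ((lossy C (1 / (L ^ 12 * mMC N)) (A \ T)).card : ℝ) ≤
          (C.card : ℝ) * ((24000000 * p) ^ 2 / 2 + 640010 * L) → False)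

/-! ### Sections 7 and 8 -/

/-- **Section 8** (combinatorial lemma) -/
def S_CL : Prop := ∀ (N q : ℕ) (L l : ℝ) (P : GP N) (D : ℕ) (p : ℝ), Ctx N q L l P D p →
  ∀ A ∈ Fam P q D, ∃ R ⊆ A, (R.card : ℝ) ≤ p / 20000 ∧ ∃ Dr, Derq P R A Dr ∧
    0.86 * p ≤ (Dr.card : ℝ)

/-- **The static theorem**, small range -/
def S_Mi : Prop := ∀ (N q : ℕ) (L l : ℝ), Big N q L l →
  Sys N (1 / 16) (fun P => ∀ (D : ℕ) (p : ℝ), Ctx N q L l P D p →
    ((Fam P q D).card : ℝ) ≤ (2 : ℝ) ^ (0.002875 * p * L))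

/-! ### Section 9 -/

/-- **The static theorem**, large range -/
def S_Ma : Prop := ∃ L0 : ℝ, ∀ (N q : ℕ) (L l : ℝ), Big N q L l → L0 ≤ L →
  Sys N (1 / 16) (fun P => Vd P L → ∀ D : ℕ, 10 ^ (-17 : ℤ) * L ^ 2 ≤ (D : ℝ) →
    ((Fam P q D).card : ℝ) ≤ (2 : ℝ) ^ (0.575 * (D : ℝ) / 400))

/-- **The static theorem** -/
def S_St : Prop := ∃ L0 : ℝ, ∀ (N q : ℕ) (L l : ℝ), Big N q L l → L0 ≤ L →
  Sys N (1 / 8) (fun P => Vd P L → ∀ D : ℕ, 2 * 10 ^ 15 * L ≤ (D : ℝ) →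
    ((Fam P q D).card : ℝ) ≤ (2 : ℝ) ^ (0.575 * (D : ℝ) / 400))

end C0q2
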